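import Mathlib

/-!
Longest paths in P5-free graphs: definitions.  Paths are lists of vertices.
-/

set_option autoImplicit false

namespace Pool.Agent.PF

variable {V : Type*}

/-- a path as a list of distinct vertices, consecutive ones adjacent -/
def IsP (G : SimpleGraph V) (l : List V) : Prop := l.IsChain G.Adj ∧ l.Nodup

/-- a longest path -/
def Lng (G : SimpleGraph V) (l : List V) : Prop :=
  IsP G l ∧ ∀ m : List V, IsP G m → m.length ≤ l.length

/-- no induced path on five vertices (elementary form; distinctness follows) -/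
def NoP5 (G : SimpleGraph V) : Prop :=
  ∀ a b c d e : V, G.Adj a b → G.Adj b c → G.Adj c d → G.Adj d e →
    ¬ G.Adj a c → ¬ G.Adj a d → ¬ G.Adj a e → ¬ G.Adj b d → ¬ G.Adj b e → ¬ G.Adj c e → False

/-- a nonempty set in which any two elements are joined by a path inside the set -/
def Conn (G : SimpleGraph V) (K : Set V) : Prop :=
  K.Nonempty ∧ ∀ a ∈ K, ∀ b ∈ K, ∃ l : List V,
    IsP G l ∧ (∀ z ∈ l, z ∈ K) ∧ l.head? = some a ∧ l.getLast? = some b

/-- K is a component of the subgraph induced by S -/
def Comp (G : SimpleGraph V) (S K : Set V) : Prop :=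
  Conn G K ∧ K ⊆ S ∧ ∀ u ∈ K, ∀ v ∈ S, G.Adj u v → v ∈ K

/-- neighbourhood of a set -/
def Nb (G : SimpleGraph V) (K : Set V) : Set V := {v | v ∉ K ∧ ∃ u ∈ K, G.Adj v u}

/-- x has a neighbour in K -/
def Tch (G : SimpleGraph V) (x : V) (K : Set V) : Prop := ∃ u ∈ K, G.Adj x u

/-- y is the successor of x on the list l -/
def Next (l : List V) (x y : V) : Prop := ∃ A B : List V, l = A ++ x :: y :: B

/-- vertices not on the list -/
def Off (l : List V) : Set V := {v | v ∉ l}

/-- components of G - N(C) touched by x -/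
def TT (G : SimpleGraph V) (C : Set V) (x : V) : Set (Set V) :=
  {K | Comp G (Nb G C)ᶜ K ∧ Tch G x K}

/-- neighbours of y among the P-successors of N(C) -/
def NS (G : SimpleGraph V) (P : List V) (C : Set V) (y : V) : Set V :=
  {s | G.Adj y s ∧ ∃ x ∈ Nb G C, Next P x s}

end Pool.Agent.PF
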